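import Mathlib

/-!
# Exchanges of tuples
-/

set_option autoImplicit false

namespace Pool.Agent.Helper12.JJ

open Equiv

variable {V ι : Type}

/-- `σ` exchanges the tuples `a` and `b` and fixes everything else -/
def IsSw (σ : Perm V) (a b : ι → V) : Prop :=
  (∀ i, σ (a i) = b i) ∧ (∀ i, σ (b i) = a i) ∧ ∀ v, (∀ i, v ≠ a i) → (∀ i, v ≠ b i) → σ v = v

/-- the exchange of the disjoint tuples `a`, `b` is in `G` -/
structure Ex (G : Subgroup (Perm V)) (a b : ι → V) : Prop where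
  inja : Function.Injective a
  injb : Function.Injective b
  dis : ∀ i j, a i ≠ b j
  mem : ∃ σ ∈ G, IsSw σ a b

lemma IsSw.symm {σ : Perm V} {a b : ι → V} (h : IsSw σ a b) : IsSw σ b a :=
  ⟨h.2.1, h.1, fun v h1 h2 => h.2.2 v h2 h1⟩

lemma Ex.symm {G : Subgroup (Perm V)} {a b : ι → V} (h : Ex G a b) : Ex G b a :=
  ⟨h.injb, h.inja, fun i j e => h.dis j i e.symm, by
    obtain ⟨σ, hσ, hs⟩ := h.mem
    exact ⟨σ, hσ, hs.symm⟩⟩

lemma exists_sw (a b : ι → V) (ha : Function.Injective a) (hb : Function.Injective b)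
    (hd : ∀ i j, a i ≠ b j) : ∃ σ : Perm V, IsSw σ a b := by
  classical
  let w : ι × Bool ↪ V := ⟨fun p => if p.2 = true then a p.1 else b p.1, by
    rintro ⟨i, x⟩ ⟨j, y⟩ h
    cases x <;> cases y
    · have h1 : b i = b j := by simpa using h
      rw [hb h1]
    · have h1 : b i = a j := by simpa using h
      exact absurd h1.symm (hd j i)
    · have h1 : a i = b j := by simpa using h
      exact absurd h1 (hd i j)
    · have h1 : a i = a j := by simpa using h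
      rw [ha h1]⟩
  let f : Perm (ι × Bool) := ⟨fun p => (p.1, !p.2), fun p => (p.1, !p.2),
    fun p => by simp, fun p => by simp⟩
  have wt : ∀ i, w (i, true) = a i := fun i => by
    show (if (true : Bool) = true then a i else b i) = a i
    rw [if_pos rfl]
  have wf : ∀ i, w (i, false) = b i := fun i => by
    show (if (false : Bool) = true then a i else b i) = b i
    rw [if_neg (by decide)]
  refine ⟨f.viaEmbedding w, fun i => ?_, fun i => ?_, fun v h1 h2 => ?_⟩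
  · rw [← wt i, Perm.viaEmbedding_apply, ← wf i]
    rfl
  · rw [← wf i, Perm.viaEmbedding_apply, ← wt i]
    rfl
  · apply Perm.viaEmbedding_apply_of_notMem
    rintro ⟨⟨i, x⟩, hx⟩
    cases x
    · rw [wf] at hx
      exact h2 i hx.symm
    · rw [wt] at hx
      exact h1 i hx.symm

/-- exchanges are transitive on disjoint tuples -/
lemma Ex.trans {G : Subgroup (Perm V)} {a b c : ι → V} (h : Ex G a b) (h' : Ex G b c)
    (hd : ∀ i j, a i ≠ c j) : Ex G a c := by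
  obtain ⟨σ, hσ, h1, h2, h3⟩ := h.mem
  obtain ⟨τ, hτ, k1, k2, k3⟩ := h'.mem
  refine ⟨h.inja, h'.injb, hd, σ * τ * σ, G.mul_mem (G.mul_mem hσ hτ) hσ, fun i => ?_,
    fun i => ?_, fun v hva hvc => ?_⟩
  · show σ (τ (σ (a i))) = c i
    rw [h1, k1, h3 (c i) (fun j e => hd j i e.symm) (fun j e => h'.dis j i e.symm)]
  · show σ (τ (σ (c i))) = a i
    rw [h3 (c i) (fun j e => hd j i e.symm) (fun j e => h'.dis j i e.symm), k2, h2]
  · show σ (τ (σ v)) = v
    by_cases hvb : ∃ i, v = b i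
    · obtain ⟨i, rfl⟩ := hvb
      rw [h2, k3 (a i) (fun j => h.dis i j) (fun j => hd i j), h1]
    · push Not at hvb
      rw [h3 v hva hvb, k3 v hvb hvc, h3 v hva hvb]

/-- restriction of positions of the tuples preserves injectivity and disjointness; `G` is closed
under `r`-local agreement -/
def RCl (G : Subgroup (Perm V)) (r : ℕ) : Prop :=
  ∀ σ : Perm V, (∀ A : Finset V, A.card ≤ r → ∃ g ∈ G, ∀ x ∈ A, g x = σ x) → σ ∈ G

/-- from three-cycles of blocks to exchanges -/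
lemma core {G : Subgroup (Perm V)} {r : ℕ} (hcl : RCl G r) {J : Type} [Fintype J]
    (hJ : r + 3 ≤ Fintype.card J) (X0 Y : ι → V) (X : J → ι → V) (c : J → Perm V)
    (hc : ∀ j, c j ∈ G) (h1 : ∀ j p, c j (X0 p) = Y p) (h2 : ∀ j p, c j (Y p) = X j p)
    (h3 : ∀ j p, c j (X j p) = X0 p)
    (h4 : ∀ j v, (∀ p, v ≠ X0 p) → (∀ p, v ≠ Y p) → (∀ p, v ≠ X j p) → c j v = v)
    (hY : Function.Injective Y)
    (hX : ∀ j j' p p', X j p = X j' p' → j = j' ∧ p = p')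
    (d1 : ∀ p q, X0 p ≠ Y q) (d2 : ∀ p j q, X0 p ≠ X j q) (d3 : ∀ p j q, Y p ≠ X j q) :
    ∀ j, Ex G Y (X j) := by
  classical
  intro i
  have hXi : ∀ j, Function.Injective (X j) := fun j p q h => (hX j j p q h).2
  obtain ⟨σ, s1, s2, s3⟩ := exists_sw Y (X i) hY (hXi i) (fun p q => d3 p i q)
  refine ⟨hY, hXi i, fun p q => d3 p i q, σ, hcl σ (fun A hA => ?_), s1, s2, s3⟩
  -- two spare blocks
  let bad : Finset J := Finset.univ.filter (fun j => ∃ x ∈ A, ∃ p, X j p = x)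
  have hbad : bad.card ≤ A.card := by
    let f : V → Option J := fun x => if h : ∃ j p, X j p = x then some h.choose else none
    have hsub : bad.image some ⊆ A.image f := by
      intro o ho
      obtain ⟨j, hj, rfl⟩ := Finset.mem_image.1 ho
      obtain ⟨x, hx, p, hp⟩ := (Finset.mem_filter.1 hj).2
      refine Finset.mem_image.2 ⟨x, hx, ?_⟩
      have hex : ∃ j p, X j p = x := ⟨j, p, hp⟩
      show (if h : ∃ j p, X j p = x then some h.choose else none) = some j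
      rw [dif_pos hex]
      obtain ⟨q, hq⟩ := hex.choose_spec
      rw [(hX _ _ _ _ (hq.trans hp.symm)).1]
    calc bad.card = (bad.image some).card :=
          (Finset.card_image_of_injective _ (Option.some_injective J)).symm
      _ ≤ (A.image f).card := Finset.card_le_card hsub
      _ ≤ A.card := Finset.card_image_le
  have hgood : 1 < (Finset.univ \ (insert i bad)).card := by
    rw [Finset.card_univ_sdiff]
    have := Finset.card_insert_le i bad
    omega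
  obtain ⟨j, hj, l, hl, hjl⟩ := Finset.one_lt_card.1 hgood
  simp only [Finset.mem_sdiff, Finset.mem_univ, true_and, Finset.mem_insert, not_or, bad,
    Finset.mem_filter, not_exists, not_and] at hj hl
  have i1 : ∀ (j : J) p, (c j)⁻¹ (Y p) = X0 p := fun j p => by
    rw [Perm.inv_eq_iff_eq]; exact (h1 j p).symm
  have i2 : ∀ (j : J) p, (c j)⁻¹ (X j p) = Y p := fun j p => by
    rw [Perm.inv_eq_iff_eq]; exact (h2 j p).symm
  have i3 : ∀ (j : J) p, (c j)⁻¹ (X0 p) = X j p := fun j p => by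
    rw [Perm.inv_eq_iff_eq]; exact (h3 j p).symm
  have i4 : ∀ j v, (∀ p, v ≠ X0 p) → (∀ p, v ≠ Y p) → (∀ p, v ≠ X j p) → (c j)⁻¹ v = v :=
    fun j v e1 e2 e3 => by rw [Perm.inv_eq_iff_eq]; exact (h4 j v e1 e2 e3).symm
  -- `X j'` is fixed by `c j`
  have f1 : ∀ j j' p, j' ≠ j → c j (X j' p) = X j' p := fun j j' p hne =>
    h4 j _ (fun q e => d2 q j' p e.symm) (fun q e => d3 q j' p e.symm)
      (fun q e => hne (hX _ _ _ _ e).1)
  have f2 : ∀ j j' p, j' ≠ j → (c j)⁻¹ (X j' p) = X j' p := fun j j' p hne => by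
    rw [Perm.inv_eq_iff_eq]; exact (f1 j j' p hne).symm
  refine ⟨(c i)⁻¹ * c j * (c l)⁻¹ * c j, G.mul_mem (G.mul_mem (G.mul_mem (G.inv_mem (hc i))
    (hc j)) (G.inv_mem (hc l))) (hc j), fun x hx => ?_⟩
  show (c i)⁻¹ (c j ((c l)⁻¹ (c j x))) = σ x
  by_cases hxY : ∃ p, x = Y p
  · obtain ⟨p, rfl⟩ := hxY
    rw [h2, f2 l j p hjl, h3, i3, s1]
  by_cases hxi : ∃ p, x = X i p
  · obtain ⟨p, rfl⟩ := hxi
    rw [f1 j i p (fun e => hj.1 e.symm), f2 l i p (fun e => hl.1 e.symm),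
      f1 j i p (fun e => hj.1 e.symm), i2, s2]
  push Not at hxY hxi
  rw [s3 x hxY hxi]
  by_cases hx0 : ∃ p, x = X0 p
  · obtain ⟨p, rfl⟩ := hx0
    rw [h1, i1, h1, i1]
  push Not at hx0
  have hxj : ∀ p, x ≠ X j p := fun p e => hj.2 x hx p e.symm
  have hxl : ∀ p, x ≠ X l p := fun p e => hl.2 x hx p e.symm
  rw [h4 j x hx0 hxY hxj, i4 l x hx0 hxY hxl, h4 j x hx0 hxY hxj, i4 i x hx0 hxY hxi]

/-- the three-cycles of the parts of two overlapping exchanges -/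
lemma step3 {G : Subgroup (Perm V)} {r : ℕ} (hcl : RCl G r) {κ ρ α : Type} [Fintype κ]
    {a b : α → V} (hab : Ex G a b) {u : κ → ρ → V}
    (hu : ∀ i j p q, u i p = u j q → i = j ∧ p = q)
    (hG : ∀ i j, i ≠ j → ∃ σ ∈ G, IsSw σ (u i) (u j)) (hb : ∀ c i p, b c ≠ u i p) (i₀ : κ)
    (I : Finset κ) (hI : ∀ i ∈ I, ∀ p c, u i p ≠ a c) (hi₀ : i₀ ∉ I) (hc : r + 3 ≤ I.card) :
    ∃ y : {p : ρ // ∃ c, u i₀ p = a c} → V, (∀ p, ∃ c, y p = b c) ∧
      ∀ i ∈ I, Ex G y (fun p => u i p.1) := by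
  classical
  obtain ⟨g, hg, g1, g2, g3⟩ := hab.mem
  have hne : ∀ j : {i // i ∈ I}, i₀ ≠ j.1 := fun j e => hi₀ (e ▸ j.2)
  choose h hh hsw using fun j : {i // i ∈ I} => hG i₀ j.1 (hne j)
  -- `g` fixes the blocks in `I`
  have gfix : ∀ (j : {i // i ∈ I}) p, g (u j.1 p) = u j.1 p := fun j p =>
    g3 _ (fun c => hI j.1 j.2 p c) (fun c e => hb c j.1 p e.symm)
  -- `h j` fixes `b`
  have hfixb : ∀ (j : {i // i ∈ I}) c, h j (b c) = b c := fun j c =>
    (hsw j).2.2 _ (fun p => hb c i₀ p) (fun p => hb c j.1 p)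
  have hcard : r + 3 ≤ Fintype.card {i // i ∈ I} := by rw [Fintype.card_coe]; exact hc
  have key := core (ι := {p : ρ // ∃ c, u i₀ p = a c}) hcl hcard (fun p => u i₀ p.1)
    (fun p => g (u i₀ p.1)) (fun j p => u j.1 p.1) (fun j => g * h j * g * h j)
    (fun j => G.mul_mem (G.mul_mem (G.mul_mem hg (hh j)) hg) (hh j)) ?_ ?_ ?_ ?_ ?_ ?_ ?_ ?_ ?_
  · refine ⟨fun p => g (u i₀ p.1), ?_, fun i hi => key ⟨i, hi⟩⟩
    rintro ⟨p, c, hc⟩
    exact ⟨c, by show g (u i₀ p) = b c; rw [hc, g1]⟩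
  · rintro j ⟨p, c, hpc⟩
    show g (h j (g (h j (u i₀ p)))) = g (u i₀ p)
    rw [(hsw j).1, gfix, (hsw j).2.1]
  · rintro j ⟨p, c, hpc⟩
    show g (h j (g (h j (g (u i₀ p))))) = u j.1 p
    rw [hpc, g1, hfixb, g2, ← hpc, (hsw j).1, gfix]
  · rintro j ⟨p, c, hpc⟩
    show g (h j (g (h j (u j.1 p)))) = u i₀ p
    rw [(hsw j).2.1, hpc, g1, hfixb, g2]
  · intro j v e1 e2 e3
    show g (h j (g (h j v))) = v
    by_cases v0 : ∃ q, v = u i₀ q
    · obtain ⟨q, rfl⟩ := v0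
      have hq : ∀ c, u i₀ q ≠ a c := fun c e => e1 ⟨q, c, e⟩ rfl
      rw [(hsw j).1, gfix, (hsw j).2.1, g3 _ hq (fun c e => hb c i₀ q e.symm)]
    by_cases v1 : ∃ q, v = u j.1 q
    · obtain ⟨q, rfl⟩ := v1
      have hq : ∀ c, u i₀ q ≠ a c := fun c e => e3 ⟨q, c, e⟩ rfl
      rw [(hsw j).2.1, g3 _ hq (fun c e => hb c i₀ q e.symm), (hsw j).1, gfix]
    push Not at v0 v1
    rw [(hsw j).2.2 v v0 v1]
    by_cases v2 : ∃ c, v = a c
    · obtain ⟨c, rfl⟩ := v2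
      rw [g1, hfixb, g2]
    by_cases v3 : ∃ c, v = b c
    · obtain ⟨c, rfl⟩ := v3
      have hac : ∀ q, a c ≠ u i₀ q := by
        intro q e
        refine e2 ⟨q, c, e.symm⟩ ?_
        show b c = g (u i₀ q)
        rw [← e, g1]
      rw [g2, (hsw j).2.2 (a c) hac (fun q e => hI j.1 j.2 q c e.symm), g1]
    push Not at v2 v3
    rw [g3 v v2 v3, (hsw j).2.2 v v0 v1, g3 v v2 v3]
  · rintro ⟨p, c, hpc⟩ ⟨q, d, hqd⟩ e
    have e' : u i₀ p = u i₀ q := g.injective e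
    exact Subtype.ext (hu _ _ _ _ e').2
  · rintro ⟨j, hj⟩ ⟨j', hj'⟩ ⟨p, _⟩ ⟨q, _⟩ e
    have := hu _ _ _ _ e
    exact ⟨Subtype.ext this.1, Subtype.ext this.2⟩
  · rintro ⟨p, c, hpc⟩ ⟨q, d, hqd⟩ e
    have e' : u i₀ p = g (u i₀ q) := e
    rw [hqd, g1] at e'
    exact hb d i₀ p e'.symm
  · rintro ⟨p, c, hpc⟩ j ⟨q, d, hqd⟩ e
    exact hne j (hu _ _ _ _ e).1
  · rintro ⟨p, c, hpc⟩ j ⟨q, d, hqd⟩ e
    have e' : g (u i₀ p) = u j.1 q := e
    rw [hpc, g1] at e'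
    exact hb c j.1 q e'

end Pool.Agent.Helper12.JJ
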