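import Pool.Agent.Helper12.JJ.Sw

/-!
# Greedy chains of homogeneous families
-/

set_option autoImplicit false

namespace Pool.Agent.Helper12.JJ

open Equiv

variable {V : Type}

/-- families of `m` blocks of `s` points -/
structure Fml (G : Subgroup (Perm V)) (m s : ℕ) (u : Fin m → Fin s → V) : Prop where
  inj : ∀ i j p q, u i p = u j q → i = j ∧ p = q
  sw : ∀ i j, i ≠ j → ∃ σ ∈ G, IsSw σ (u i) (u j)

/-- there is such a family inside `U` -/
def FamIn (G : Subgroup (Perm V)) (U : Finset V) (s m : ℕ) : Prop :=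
  ∃ u : Fin m → Fin s → V, Fml G m s u ∧ ∀ i p, u i p ∈ U

/-- closed under exchanges of at most `k` points -/
def ECl (G : Subgroup (Perm V)) (k : ℕ) (U : Finset V) : Prop :=
  ∀ t, t ≤ k → ∀ a b : Fin t → V, Ex G a b → (∀ c, a c ∈ U) → ∀ c, b c ∈ U

lemma Fml.ex {G : Subgroup (Perm V)} {m s : ℕ} {u : Fin m → Fin s → V} (h : Fml G m s u)
    {i j : Fin m} (hij : i ≠ j) : Ex G (u i) (u j) :=
  ⟨fun p q e => (h.inj i i p q e).2, fun p q e => (h.inj j j p q e).2,
    fun p q e => hij (h.inj i j p q e).1, h.sw i j hij⟩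

lemma IsSw.comp {ι κ : Type} {σ : Perm V} {a b : ι → V} (h : IsSw σ a b) (e : κ ≃ ι) :
    IsSw σ (a ∘ e) (b ∘ e) := by
  refine ⟨fun i => h.1 (e i), fun i => h.2.1 (e i), fun v h1 h2 => h.2.2 v (fun i => ?_)
    (fun i => ?_)⟩
  · have := h1 (e.symm i)
    simpa using this
  · have := h2 (e.symm i)
    simpa using this

/-- the step -/
lemma step {G : Subgroup (Perm V)} {r k : ℕ} (hcl : RCl G r) {U : Finset V} (hU : ECl G k U)
    {D : ℕ → ℕ} (hD : ∀ s t, 1 ≤ s → s < t → t ≤ k → D s + k ≤ D t)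
    (hD1 : ∀ t, 1 ≤ t → k + r + 3 ≤ D t) {m s : ℕ} (hs1 : 1 ≤ s) (hs : s ≤ k)
    {u : Fin m → Fin s → V} (hu : Fml G m s u) (huU : ∀ i p, u i p ∈ U) (hm : D s ≤ m)
    (hmin : ∀ s', 1 ≤ s' → s' < s → ∀ m', D s' ≤ m' → ¬ FamIn G U s' m')
    (hmax : ¬ FamIn G U s (m + 1)) :
    ∀ t, t ≤ k → ∀ a b : Fin t → V, Ex G a b → (∃ c i p, a c = u i p) →
      ∃ c i p, b c = u i p := by
  classical
  intro t ht a b hab ha
  obtain ⟨c₀, i₀, p₀, h₀⟩ := ha
  by_contra hb
  push Not at hb
  let I : Finset (Fin m) := Finset.univ.filter (fun i => ∀ p c, u i p ≠ a c)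
  have hI : ∀ i ∈ I, ∀ p c, u i p ≠ a c := fun i hi => (Finset.mem_filter.1 hi).2
  have hi₀ : i₀ ∉ I := fun h => hI i₀ h p₀ c₀ h₀.symm
  have hIc : Iᶜ.card ≤ t := by
    have hsub : ∀ i ∈ Iᶜ, ∃ c p, a c = u i p := by
      intro i hi
      simp only [I, Finset.mem_compl, Finset.mem_filter, Finset.mem_univ, true_and] at hi
      push Not at hi
      obtain ⟨p, c, e⟩ := hi
      exact ⟨c, p, e.symm⟩
    have hf : ∀ i : {i // i ∈ Iᶜ}, ∃ c p, a c = u i.1 p := fun i => hsub i.1 i.2
    choose f hf' using hf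
    have hinj : Function.Injective f := by
      intro i j e
      obtain ⟨p, hp⟩ := hf' i
      obtain ⟨q, hq⟩ := hf' j
      rw [e, hq] at hp
      exact Subtype.ext (hu.inj _ _ _ _ hp).1.symm
    have h1 := Fintype.card_le_of_injective f hinj
    rw [Fintype.card_coe, Fintype.card_fin] at h1
    exact h1
  have hIcard : m ≤ I.card + t := by
    have := Finset.card_add_card_compl I
    rw [Fintype.card_fin] at this
    omega
  have hr : r + 3 ≤ I.card := by
    have := hD1 s hs1
    omega
  obtain ⟨y, hy, hyI⟩ := step3 hcl hab hu.inj hu.sw hb i₀ I hI hi₀ hr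
  by_cases hall : ∀ p, ∃ c, u i₀ p = a c
  · -- one more block
    let y' : Fin s → V := fun p => y ⟨p, hall p⟩
    have hEx : ∀ i ∈ I, Ex G y' (u i) := by
      intro i hi
      have h1 := hyI i hi
      obtain ⟨σ, hσ, hs⟩ := h1.mem
      let e : Fin s ≃ {p : Fin s // ∃ c, u i₀ p = a c} :=
        ⟨fun p => ⟨p, hall p⟩, fun p => p.1, fun _ => rfl, fun _ => rfl⟩
      refine ⟨?_, ?_, ?_, σ, hσ, hs.comp e⟩
      · intro p q hpq
        have := h1.inja hpq
        exact congrArg Subtype.val this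
      · intro p q hpq
        exact (hu.inj _ _ _ _ hpq).2
      · intro p q hpq
        exact h1.dis ⟨p, hall p⟩ ⟨q, hall q⟩ hpq
    have hyb : ∀ p, ∃ c, y' p = b c := fun p => hy ⟨p, hall p⟩
    have hyu : ∀ p j q, y' p ≠ u j q := by
      intro p j q e
      obtain ⟨c, hc⟩ := hyb p
      exact hb c j q (hc.symm.trans e)
    obtain ⟨i₁, hi₁⟩ : ∃ i, i ∈ I := Finset.card_pos.1 (by omega)
    have hyU : ∀ p, y' p ∈ U := hU s hs _ _ (hEx i₁ hi₁).symm (huU i₁)
    have hExall : ∀ j, Ex G y' (u j) := by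
      intro j
      by_cases hj : i₁ = j
      · rw [← hj]; exact hEx i₁ hi₁
      · exact (hEx i₁ hi₁).trans (hu.ex hj) (fun p q => hyu p j q)
    apply hmax
    refine ⟨Fin.cons y' u, ⟨?_, ?_⟩, ?_⟩
    · intro i j
      refine Fin.cases ?_ (fun i => ?_) i <;> refine Fin.cases ?_ (fun j => ?_) j
      · intro p q e
        simp only [Fin.cons_zero] at e
        exact ⟨rfl, (hEx i₁ hi₁).inja e⟩
      · intro p q e
        simp only [Fin.cons_zero, Fin.cons_succ] at e
        exact absurd e (hyu p j q)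
      · intro p q e
        simp only [Fin.cons_zero, Fin.cons_succ] at e
        exact absurd e.symm (hyu q i p)
      · intro p q e
        simp only [Fin.cons_succ] at e
        obtain ⟨h1, h2⟩ := hu.inj _ _ _ _ e
        exact ⟨by rw [h1], h2⟩
    · intro i j
      refine Fin.cases ?_ (fun i => ?_) i <;> refine Fin.cases ?_ (fun j => ?_) j
      · intro h; exact absurd rfl h
      · intro _
        simp only [Fin.cons_zero, Fin.cons_succ]
        exact (hExall j).mem
      · intro _
        simp only [Fin.cons_zero, Fin.cons_succ]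
        exact (hExall i).symm.mem
      · intro h
        simp only [Fin.cons_succ]
        exact hu.sw i j (fun e => h (by rw [e]))
    · intro i
      refine Fin.cases ?_ (fun i => ?_) i
      · intro p
        simp only [Fin.cons_zero]
        exact hyU p
      · intro p
        simp only [Fin.cons_succ]
        exact huU i p
  · -- smaller blocks
    push Not at hall
    obtain ⟨p₁, hp₁⟩ := hall
    let π := {p : Fin s // ∃ c, u i₀ p = a c}
    have hπ1 : 1 ≤ Fintype.card π := Fintype.card_pos_iff.2 ⟨⟨p₀, c₀, h₀.symm⟩⟩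
    have hπs : Fintype.card π < s := by
      have h1 : Fintype.card π < Fintype.card (Fin s) :=
        Fintype.card_subtype_lt (x := p₁) (fun ⟨c, hc⟩ => hp₁ c hc)
      rwa [Fintype.card_fin] at h1
    refine hmin (Fintype.card π) hπ1 hπs I.card ?_ ?_
    · have := hD (Fintype.card π) s hπ1 hπs hs
      omega
    · let e : Fin (Fintype.card π) ≃ π := (Fintype.equivFin π).symm
      let f : Fin I.card ≃ {i // i ∈ I} := (Finset.equivFin I).symm
      refine ⟨fun i x => u (f i).1 (e x).1, ⟨?_, ?_⟩, fun i x => huU _ _⟩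
      · intro i j x z h
        obtain ⟨h1, h2⟩ := hu.inj _ _ _ _ h
        exact ⟨f.injective (Subtype.ext h1), e.injective (Subtype.ext h2)⟩
      · intro i j hij
        have hne : (f i).1 ≠ (f j).1 := fun h => hij (f.injective (Subtype.ext h))
        have h1 := (hyI (f i).1 (f i).2).symm.trans (hyI (f j).1 (f j).2)
          (fun p q h => hne (hu.inj _ _ _ _ h).1)
        obtain ⟨σ, hσ, hs⟩ := h1.mem
        exact ⟨σ, hσ, hs.comp e⟩

/-- after a step -/
lemma ECl.sdiff {G : Subgroup (Perm V)} {k : ℕ} [DecidableEq V] {U : Finset V} (hU : ECl G k U)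
    {m s : ℕ} {u : Fin m → Fin s → V}
    (h : ∀ t, t ≤ k → ∀ a b : Fin t → V, Ex G a b → (∃ c i p, a c = u i p) →
      ∃ c i p, b c = u i p) :
    ECl G k (U.filter (fun v => ∀ i p, v ≠ u i p)) := by
  intro t ht a b hab ha c
  rw [Finset.mem_filter]
  refine ⟨hU t ht a b hab (fun c => (Finset.mem_filter.1 (ha c)).1) c, fun i p e => ?_⟩
  obtain ⟨c', i', p', h'⟩ := h t ht b a hab.symm ⟨c, i, p, e⟩
  exact (Finset.mem_filter.1 (ha c')).2 i' p' h'

/-- a family with its parameters -/
structure Blk (V : Type) where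
  /-- number of blocks -/
  m : ℕ
  /-- size of the blocks -/
  s : ℕ
  /-- the points -/
  u : Fin m → Fin s → V

/-- greedy chains -/
theorem exists_chain [Fintype V] {G : Subgroup (Perm V)} {r k : ℕ} (hcl : RCl G r)
    {D : ℕ → ℕ} (hD : ∀ s t, 1 ≤ s → s < t → t ≤ k → D s + k ≤ D t)
    (hD1 : ∀ t, 1 ≤ t → k + r + 3 ≤ D t) : ∀ (n : ℕ) (U : Finset V), U.card ≤ n →
    ECl G k U → ∃ (N : ℕ) (B : Fin N → Blk V) (U' : Finset V), U' ⊆ U ∧
      (∀ j, 1 ≤ (B j).s ∧ (B j).s ≤ k ∧ D (B j).s ≤ (B j).m ∧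
        Fml G (B j).m (B j).s (B j).u ∧
        (∀ i p, (B j).u i p ∈ U ∧ (B j).u i p ∉ U') ∧
        (∀ j', j ≠ j' → ∀ i p i' p', (B j).u i p ≠ (B j').u i' p') ∧
        ∀ t, t ≤ k → ∀ a b : Fin t → V, Ex G a b → (∃ c i p, a c = (B j).u i p) →
          ∃ c i p, b c = (B j).u i p) ∧
      (∀ v ∈ U, v ∈ U' ∨ ∃ j i p, (B j).u i p = v) ∧
      ∀ t, 1 ≤ t → t ≤ k → ∀ m, D t ≤ m → ¬ FamIn G U' t m := by
  classical
  intro n
  induction n with
  | zero =>
    intro U hn hU
    have hU0 : U = ∅ := Finset.card_eq_zero.1 (by omega)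
    refine ⟨0, fun j => j.elim0, U, subset_rfl, fun j => j.elim0, fun v hv => Or.inl hv, ?_⟩
    rintro t ht htk m hm ⟨u, hu, huU⟩
    have h1 := hD1 t ht
    have := huU ⟨0, by omega⟩ ⟨0, by omega⟩
    rw [hU0] at this
    simp at this
  | succ n ih =>
    intro U hn hU
    by_cases hex : ∃ t, 1 ≤ t ∧ t ≤ k ∧ ∃ m, D t ≤ m ∧ FamIn G U t m
    · -- the minimal block size
      have hmem : ∃ s, (1 ≤ s ∧ s ≤ k ∧ ∃ m, D s ≤ m ∧ FamIn G U s m) ∧
          ∀ s', s' < s → ¬ (1 ≤ s' ∧ s' ≤ k ∧ ∃ m, D s' ≤ m ∧ FamIn G U s' m) := by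
        refine ⟨Nat.find hex, Nat.find_spec hex, fun s' hs' => Nat.find_min hex hs'⟩
      obtain ⟨s, ⟨hs1, hsk, m₀, hm₀, hF₀⟩, hsmin⟩ := hmem
      have hle : ∀ m, FamIn G U s m → m ≤ Fintype.card V := by
        rintro m ⟨u, hu, -⟩
        have h1 : Function.Injective (fun i : Fin m => u i ⟨0, by omega⟩) := by
          intro i j e
          exact (hu.inj _ _ _ _ e).1
        have h2 := Fintype.card_le_of_injective _ h1
        rwa [Fintype.card_fin] at h2
      -- the maximal number of blocks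
      let m := Nat.findGreatest (fun m => FamIn G U s m) (Fintype.card V)
      have hm : FamIn G U s m := Nat.findGreatest_spec (P := fun m => FamIn G U s m)
        (hle m₀ hF₀) hF₀
      have hmm : m₀ ≤ m := Nat.le_findGreatest (hle m₀ hF₀) hF₀
      have hmax : ¬ FamIn G U s (m + 1) := by
        intro h
        have := Nat.le_findGreatest (P := fun m => FamIn G U s m) (hle _ h) h
        omega
      obtain ⟨u, hu, huU⟩ := hm
      have hst := step hcl hU hD hD1 hs1 hsk hu huU (hm₀.trans hmm)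
        (fun s' h1 h2 m' h3 h4 => hsmin s' h2 ⟨h1, by omega, m', h3, h4⟩) hmax
      have hD0 := hD1 s hs1
      have hmpos : 0 < m := by omega
      have hcard : (U.filter (fun v => ∀ i p, v ≠ u i p)).card ≤ n := by
        have h1 : (U.filter (fun v => ∀ i p, v ≠ u i p)) ⊂ U := by
          refine Finset.ssubset_iff_subset_ne.2 ⟨Finset.filter_subset _ _, fun h => ?_⟩
          have h2 : u ⟨0, hmpos⟩ ⟨0, by omega⟩ ∈ U.filter (fun v => ∀ i p, v ≠ u i p) := by
            rw [h]
            exact huU _ _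
          exact (Finset.mem_filter.1 h2).2 _ _ rfl
        have := Finset.card_lt_card h1
        omega
      obtain ⟨N, B, U', hU', hB, hcov, hend⟩ := ih _ hcard (hU.sdiff hst)
      refine ⟨N + 1, Fin.cons ⟨m, s, u⟩ B, U', hU'.trans (Finset.filter_subset _ _), ?_, ?_,
        hend⟩
      · intro j
        refine Fin.cases ?_ (fun j => ?_) j
        · refine ⟨hs1, hsk, hm₀.trans hmm, hu, fun i p => ⟨huU i p, fun h => ?_⟩, ?_, hst⟩
          · exact (Finset.mem_filter.1 (hU' h)).2 i p rfl
          · intro j'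
            refine Fin.cases ?_ (fun j' => ?_) j'
            · intro h; exact absurd rfl h
            · have key : ∀ (i : Fin m) (p : Fin s) (i' : Fin (B j').m) (p' : Fin (B j').s),
                  u i p ≠ (B j').u i' p' := by
                intro i p i' p' e
                have h2 := ((hB j').2.2.2.2.1 i' p').1
                rw [← e, Finset.mem_filter] at h2
                exact h2.2 i p rfl
              exact fun _ => key
        · obtain ⟨b1, b2, b3, b4, b5, b6, b7⟩ := hB j
          refine ⟨b1, b2, b3, b4, fun i p => ⟨(Finset.mem_filter.1 (b5 i p).1).1, (b5 i p).2⟩,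
            ?_, b7⟩
          intro j'
          refine Fin.cases ?_ (fun j' => ?_) j'
          · have key : ∀ (i : Fin (B j).m) (p : Fin (B j).s) (i' : Fin m) (p' : Fin s),
                (B j).u i p ≠ u i' p' := by
              intro i p i' p' e
              have h2 := (b5 i p).1
              rw [e, Finset.mem_filter] at h2
              exact h2.2 i' p' rfl
            exact fun _ => key
          · intro h
            exact b6 j' (fun e => h (by rw [e]))
      · intro v hv
        by_cases hvu : ∃ i p, v = u i p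
        · obtain ⟨i, p, e⟩ := hvu
          right
          exact ⟨0, i, p, e.symm⟩
        · push Not at hvu
          rcases hcov v (Finset.mem_filter.2 ⟨hv, hvu⟩) with h | ⟨j, i, p, h⟩
          · exact Or.inl h
          · right
            exact ⟨j.succ, i, p, h⟩
    · refine ⟨0, fun j => j.elim0, U, subset_rfl, fun j => j.elim0, fun v hv => Or.inl hv, ?_⟩
      intro t ht htk m hm hF
      exact hex ⟨t, ht, htk, m, hm, hF⟩

end Pool.Agent.Helper12.JJ
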